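import Pool.Agent.MP_542436_nt.Sp.Spec

set_option autoImplicit false

namespace Pool.Agent.MP_542436_nt.H70

open Polynomial NumberField Finset Filter Pool.Agent.MP_542436_nt.Sp

/-- The field and the integral generator attached to an irreducible integer polynomial. -/
theorem exists_field (hP : PlcStmt) (d : ℕ) (hd : 6 ≤ d) (g : ℤ[X]) (hg : g.natDegree = d)
    (hi : Irreducible (g.map (Int.castRingHom ℚ))) :
    ∃ (K : Type) (_ : Field K) (_ : NumberField K) (θ : K), St d θ ∧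
      minpoly ℤ θ = integralNormalization g := by
  have : Fact (Irreducible (g.map (Int.castRingHom ℚ))) := ⟨hi⟩
  have hg0 : g ≠ 0 := by
    intro h
    rw [h, natDegree_zero] at hg
    omega
  let K := AdjoinRoot (g.map (Int.castRingHom ℚ))
  let pb := AdjoinRoot.powerBasis hi.ne_zero
  have : CharZero K := algebraRat.charZero K
  have : FiniteDimensional ℚ K := pb.finite
  have : NumberField K := {}
  let ρ : K := AdjoinRoot.root (g.map (Int.castRingHom ℚ))
  have hρ : aeval ρ g = 0 := by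
    have h1 : aeval ρ (g.map (algebraMap ℤ ℚ)) = 0 := by
      have := AdjoinRoot.aeval_eq (f := g.map (Int.castRingHom ℚ)) (g.map (Int.castRingHom ℚ))
      rw [AdjoinRoot.mk_self] at this
      exact this
    rwa [aeval_map_algebraMap] at h1
  have hc : (g.leadingCoeff : ℂ) ≠ 0 := by exact_mod_cast leadingCoeff_ne_zero.2 hg0
  have hint : IsIntegral ℤ (g.leadingCoeff • ρ) := isIntegral_leadingCoeff_smul g ρ hρ
  have hst : St d (g.leadingCoeff • ρ) := by
    refine ⟨hint, ?_, ?_, hd⟩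
    · rw [pb.finrank, AdjoinRoot.powerBasis_dim,
        natDegree_map_eq_of_injective (Int.castRingHom ℚ).injective_int, hg]
    · intro σ τ h
      simp only [zsmul_eq_mul, map_mul, map_intCast] at h
      have h2 : σ ρ = τ ρ := mul_left_cancel₀ hc h
      exact AdjoinRoot.ringHom_ext (Subsingleton.elim _ _) h2
  refine ⟨K, inferInstance, inferInstance, g.leadingCoeff • ρ, hst, ?_⟩
  have h0 : aeval (g.leadingCoeff • ρ) (integralNormalization g) = 0 := by
    have := integralNormalization_aeval_eq_zero (A := K) hρ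
      (fun x hx => by simpa using hx)
    simpa [zsmul_eq_mul] using this
  have h1 := minpoly.isIntegrallyClosed_dvd hint h0
  symm
  apply eq_of_monic_of_dvd_of_natDegree_le (minpoly.monic hint) (monic_integralNormalization hg0) h1
  rw [natDegree_integralNormalization, hg]
  exact (hP.minp K d _ hst).1.ge

theorem hv_norm (g : ℤ[X]) (d : ℕ) (hg : g.natDegree = d) (h1 : 1 ≤ d) (a b : ℤ) :
    H5.hv (integralNormalization g) d (g.leadingCoeff * a, b) =
      g.leadingCoeff ^ (d - 1) * H5.hv g d (a, b) := by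
  unfold H5.hv
  rw [Finset.mul_sum]
  refine Finset.sum_congr rfl fun k _ => ?_
  have := integralNormalization_coeff_mul_leadingCoeff_pow (p := g) k (by omega)
  rw [hg] at this
  simp only [mul_pow]
  linear_combination (a ^ k * b ^ (d - k)) * this

theorem hv_smul (g : ℤ[X]) (d : ℕ) (e a b : ℤ) :
    H5.hv g d (e * a, e * b) = e ^ d * H5.hv g d (a, b) := by
  unfold H5.hv
  rw [Finset.mul_sum]
  refine Finset.sum_congr rfl fun k hk => ?_
  have hk' : k ≤ d := Nat.lt_succ_iff.1 (Finset.mem_range.1 hk)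
  have : e ^ d = e ^ k * e ^ (d - k) := by rw [← pow_add, Nat.add_sub_cancel' hk']
  simp only [mul_pow, this]
  ring

/-- Passing to the primitive vector attached to the monic form. -/
theorem prim (g : ℤ[X]) (d : ℕ) (hg : g.natDegree = d) (h1 : 1 ≤ d) (a b : ℤ)
    (hab : Int.gcd a b = 1) (p : ℕ) (hp : p.Prime) (hpc : g.leadingCoeff.natAbs < p)
    (hdv : (p : ℤ) ^ 2 ∣ H5.hv g d (a, b)) :
    ∃ (e : ℕ) (a' b' : ℤ), 1 ≤ e ∧ e ≤ g.leadingCoeff.natAbs ∧ g.leadingCoeff * a = e * a' ∧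
      b = e * b' ∧ Int.gcd a' b' = 1 ∧
      (p : ℤ) ^ 2 ∣ H5.hv (integralNormalization g) d (a', b') := by
  have hg0 : g ≠ 0 := by
    intro h
    rw [h, natDegree_zero] at hg
    omega
  have hc : g.leadingCoeff ≠ 0 := leadingCoeff_ne_zero.2 hg0
  set c := g.leadingCoeff with hcd
  have hpos : 0 < Int.gcd (c * a) b := by
    rw [Int.gcd_pos_iff]
    by_contra h
    push Not at h
    have ha : a = 0 := (mul_eq_zero.1 h.1).resolve_left hc
    rw [ha, h.2] at hab
    simp at hab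
  obtain ⟨a', b', h3, h4, h5⟩ := Int.exists_gcd_one hpos
  set e := Int.gcd (c * a) b with he
  have hec : (e : ℤ) ∣ c := by
    have c1 : IsCoprime a b := Int.isCoprime_iff_gcd_eq_one.2 hab
    have c2 : IsCoprime (e : ℤ) a := (c1.symm.of_isCoprime_of_dvd_left (Int.gcd_dvd_right _ _))
    exact c2.dvd_of_dvd_mul_right (Int.gcd_dvd_left _ _)
  have hle : e ≤ c.natAbs := Nat.le_of_dvd (Int.natAbs_pos.2 hc) (Int.natCast_dvd.1 hec)
  refine ⟨e, a', b', hpos, hle, by rw [mul_comm (e : ℤ)]; exact h4,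
    by rw [mul_comm (e : ℤ)]; exact h5, h3, ?_⟩
  have e1 := hv_norm g d hg h1 a b
  have e2 := hv_smul (integralNormalization g) d e a' b'
  rw [mul_comm (e : ℤ) a', mul_comm (e : ℤ) b', ← h4, ← h5, e1] at e2
  have cop : IsCoprime ((p : ℤ) ^ 2) ((e : ℤ) ^ d) := by
    apply IsCoprime.pow
    rw [Nat.isCoprime_iff_coprime, Nat.Prime.coprime_iff_not_dvd hp]
    exact Nat.not_dvd_of_pos_of_lt hpos (by omega)
  apply cop.dvd_of_dvd_mul_left
  rw [← e2]
  exact hdv.mul_left _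

theorem ev_ge (y A : ℝ) (hy : 0 < y) : ∀ᶠ B : ℕ in atTop, A ≤ (B : ℝ) ^ y :=
  ((tendsto_rpow_atTop hy).comp tendsto_natCast_atTop_atTop).eventually_ge_atTop A

theorem fin (hP : PlcStmt) (hH : HenselStmt) : FinStmt := by
  classical
  intro d P0 P1 P0' P1' hd h1 h0 h2 hG g hg hi
  obtain ⟨K, _, _, θ, hst, hmin⟩ := exists_field hP d hd g hg hi
  obtain ⟨δ, C, X0, hδ, hC⟩ := hG K θ hst
  obtain ⟨p1, hp1⟩ := hH K d θ hst
  have hg0 : g ≠ 0 := by
    intro h
    rw [h, natDegree_zero] at hg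
    omega
  have hc : g.leadingCoeff ≠ 0 := leadingCoeff_ne_zero.2 hg0
  set c : ℕ := g.leadingCoeff.natAbs with hcd
  have hc1 : 1 ≤ c := Int.natAbs_pos.2 hc
  have hcR : (1 : ℝ) ≤ c := by exact_mod_cast hc1
  have hl2 : 0 < Real.log 2 := Real.log_pos (by norm_num)
  set A : ℝ := |P1'| * (4 / δ) / Real.log 2 with hA
  have hA0 : 0 ≤ A := by positivity
  have E1 := ev_ge (P0' - P0) (2 * (c : ℝ) ^ P0) (by linarith)
  have E2 := ev_ge (δ / 4) (c * (A + 1) * (|C| * (c : ℝ) ^ (2 - δ))) (by linarith)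
  have E3 := ev_ge 1 X0 one_pos
  obtain ⟨B0, hB0⟩ := eventually_atTop.1
    (E1.and (E2.and (E3.and ((eventually_ge_atTop p1).and (eventually_gt_atTop c)))))
  refine ⟨δ / 2, by linarith, B0, fun B hB => ?_⟩
  obtain ⟨e1, e2, e3, e4, e5⟩ := hB0 B hB
  rw [Real.rpow_one] at e3
  have hB2 : (2 : ℝ) ≤ B := by exact_mod_cast (by omega : 2 ≤ B)
  have hBpos : (0 : ℝ) < B := by linarith
  set X : ℝ := c * B with hX
  have hBX : (B : ℝ) ≤ X := by nlinarith
  have hX1 : 1 < X := by linarith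
  have hXpos : 0 < X := by linarith
  set S := (H5.box B).filter (fun t => ∃ p : ℕ, p.Prime ∧ (B : ℝ) ^ P0' ≤ p ∧
    (p : ℝ) ≤ (B : ℝ) ^ P1' ∧ (p : ℤ) ^ 2 ∣ H5.hv g d t) with hS
  let cond : ℕ × ℕ → ℤ × ℤ → Prop := fun ek t =>
    P0 ≤ Real.logb X (2 ^ ek.2) ∧ Real.logb X (2 ^ ek.2) ≤ P1 ∧
      ∃ Q : Pt K, (Sq θ X Q.a Q.b Q.p Q.v ∧ X ^ Real.logb X (2 ^ ek.2) ≤ Q.p ∧
        (Q.p : ℝ) ≤ 2 * X ^ Real.logb X (2 ^ ek.2)) ∧
        g.leadingCoeff * t.1 = ek.1 * Q.a ∧ t.2 = ek.1 * Q.b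
  set N : ℕ := ⌊A * (B : ℝ) ^ (δ / 4)⌋₊ + 1 with hN
  have hsub : S ⊆ (Icc 1 c ×ˢ range N).biUnion (fun ek => S.filter (cond ek)) := by
    intro t ht
    have ht' := ht
    rw [hS, mem_filter] at ht'
    obtain ⟨hb, p, hp, l1, l2, hdv⟩ := ht'
    simp only [H5.box, mem_filter, mem_product, mem_Icc] at hb
    obtain ⟨⟨ha, hb⟩, hab⟩ := hb
    have hBp : (B : ℝ) ≤ p := by
      refine le_trans ?_ l1
      have := Real.rpow_le_rpow_of_exponent_le (x := B) (by linarith) (by linarith : 1 ≤ P0')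
      rwa [Real.rpow_one] at this
    have hBp' : B ≤ p := by exact_mod_cast hBp
    obtain ⟨e, a', b', u1, u2, u3, u4, u5, u6⟩ :=
      prim g d hg (by omega) t.1 t.2 hab p hp (by omega) hdv
    rw [← hmin] at u6
    obtain ⟨v, hv1, hv2⟩ := hp1 p hp (by omega) a' b' u5 u6
    have heR : (1 : ℝ) ≤ e := by exact_mod_cast u1
    have k1 : ((2 : ℝ) ^ Nat.log 2 p) ≤ p := by
      exact_mod_cast Nat.pow_log_le_self 2 hp.ne_zero
    have k2 : (p : ℝ) ≤ 2 * 2 ^ Nat.log 2 p := by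
      have := Nat.lt_pow_succ_log_self (b := 2) (by norm_num) p
      rw [pow_succ'] at this
      exact_mod_cast this.le
    have k0 : (0 : ℝ) < 2 ^ Nat.log 2 p := by positivity
    have hrl : X ^ Real.logb X (2 ^ Nat.log 2 p) = 2 ^ Nat.log 2 p :=
      Real.rpow_logb hXpos hX1.ne' k0
    have hP1 : 0 ≤ P1' := by
      by_contra hneg
      have := Real.rpow_le_one_of_one_le_of_nonpos (x := B) (z := P1') (by linarith) (by linarith)
      linarith
    rw [mem_biUnion]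
    refine ⟨(e, Nat.log 2 p), ?_, mem_filter.2 ⟨ht, ?_, ?_, ⟨0, 0, a', b', p, v⟩,
      ⟨⟨hv1, u5, ?_, ?_, hv2⟩, ?_, ?_⟩, u3, u4⟩⟩
    · rw [mem_product, mem_Icc, mem_range]
      refine ⟨⟨u1, u2⟩, Nat.lt_succ_of_le (Nat.le_floor ?_)⟩
      have l3 := Real.log_le_log k0 (k1.trans l2)
      rw [Real.log_pow, Real.log_rpow hBpos] at l3
      have l4 := Real.log_le_rpow_div hBpos.le (by linarith : 0 < δ / 4)
      have l5 : P1' * Real.log B ≤ P1' * ((B : ℝ) ^ (δ / 4) / (δ / 4)) :=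
        mul_le_mul_of_nonneg_left l4 hP1
      rw [hA, abs_of_nonneg hP1, div_mul_eq_mul_div, le_div_iff₀ hl2]
      refine (l3.trans l5).trans (le_of_eq ?_)
      field_simp
    · rw [Real.le_logb_iff_rpow_le hX1 k0, hX, Real.mul_rpow (by linarith) hBpos.le]
      have l3 : (B : ℝ) ^ P0' = (B : ℝ) ^ (P0' - P0) * (B : ℝ) ^ P0 := by
        rw [← Real.rpow_add hBpos]
        congr 1
        ring
      have l4 : (0 : ℝ) ≤ (B : ℝ) ^ P0 := by positivity
      have l5 := mul_le_mul_of_nonneg_right e1 l4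
      show (c : ℝ) ^ P0 * (B : ℝ) ^ P0 ≤ 2 ^ Nat.log 2 p
      linarith
    · rw [Real.logb_le_iff_le_rpow hX1 k0]
      refine (k1.trans l2).trans ((Real.rpow_le_rpow hBpos.le hBX hP1).trans ?_)
      exact Real.rpow_le_rpow_of_exponent_le hX1.le h2.le
    · have w1 : |(t.1 : ℝ)| ≤ B := by
        rw [abs_le]
        exact ⟨by exact_mod_cast ha.1, by exact_mod_cast ha.2⟩
      have w2 : (c : ℝ) * |(t.1 : ℝ)| = e * |(a' : ℝ)| := by
        have := congrArg (fun z : ℤ => |(z : ℝ)|) u3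
        simp only [Int.cast_mul, abs_mul, Int.cast_natCast, Nat.abs_cast] at this
        rw [← this, hcd, Nat.cast_natAbs, Int.cast_abs]
      have w3 := abs_nonneg (a' : ℝ)
      show |(a' : ℝ)| ≤ X
      nlinarith
    · have w1 : |(t.2 : ℝ)| ≤ B := by
        rw [abs_le]
        exact ⟨by exact_mod_cast hb.1, by exact_mod_cast hb.2⟩
      have w2 : |(t.2 : ℝ)| = e * |(b' : ℝ)| := by
        have := congrArg (fun z : ℤ => |(z : ℝ)|) u4
        simpa only [Int.cast_mul, abs_mul, Int.cast_natCast, Nat.abs_cast] using this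
      have w3 := abs_nonneg (b' : ℝ)
      show |(b' : ℝ)| ≤ X
      nlinarith
    · rw [hrl]
      exact k1
    · rw [hrl]
      exact k2
  have hpiece : ∀ ek ∈ Icc 1 c ×ˢ range N,
      ((S.filter (cond ek)).card : ℝ) ≤ |C| * X ^ (2 - δ) := by
    intro ek hek
    have hek1 : (ek.1 : ℤ) ≠ 0 := by
      have := (mem_Icc.1 (mem_product.1 hek).1).1
      omega
    rcases (S.filter (cond ek)).eq_empty_or_nonempty with h | ⟨t0, ht0⟩
    · rw [h]
      simp only [card_empty, Nat.cast_zero]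
      positivity
    obtain ⟨q0, q1, -⟩ := (mem_filter.1 ht0).2
    have hF := hC X (e3.trans hBX) _ q0 q1
      ((S.filter (cond ek)).image (fun t => (g.leadingCoeff * t.1 / ek.1, t.2 / ek.1))) (by
        intro x hx
        obtain ⟨t, ht, rfl⟩ := mem_image.1 hx
        obtain ⟨-, -, Q, hQ, r1, r2⟩ := (mem_filter.1 ht).2
        refine ⟨Q, hQ, ?_⟩
        rw [r1, r2, Int.mul_ediv_cancel_left _ hek1, Int.mul_ediv_cancel_left _ hek1])
    rw [card_image_of_injOn] at hF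
    · exact hF.trans (mul_le_mul_of_nonneg_right (le_abs_self C) (by positivity))
    · intro t ht t' ht' htt
      obtain ⟨-, -, Q, -, r1, r2⟩ := (mem_filter.1 (Finset.mem_coe.1 ht)).2
      obtain ⟨-, -, Q', -, r1', r2'⟩ := (mem_filter.1 (Finset.mem_coe.1 ht')).2
      simp only [r1, r2, r1', r2', Int.mul_ediv_cancel_left _ hek1, Prod.mk.injEq] at htt
      refine Prod.ext (mul_left_cancel₀ hc ?_) ?_
      · rw [r1, r1', htt.1]
      · rw [r2, r2', htt.2]
  have hcard : (S.card : ℝ) ≤ ∑ ek ∈ Icc 1 c ×ˢ range N, ((S.filter (cond ek)).card : ℝ) := by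
    exact_mod_cast (card_le_card hsub).trans card_biUnion_le
  have hsum := Finset.sum_le_card_nsmul _ _ _ hpiece
  rw [card_product, Nat.card_Icc, card_range, nsmul_eq_mul, Nat.add_sub_cancel] at hsum
  have b1 : (1 : ℝ) ≤ (B : ℝ) ^ (δ / 4) := Real.one_le_rpow (by linarith) (by linarith)
  have hNle : (N : ℝ) ≤ (A + 1) * (B : ℝ) ^ (δ / 4) := by
    have := Nat.floor_le (a := A * (B : ℝ) ^ (δ / 4)) (by positivity)
    rw [hN]
    push_cast
    nlinarith
  have b2 : (B : ℝ) ^ (2 - δ / 2) = (B : ℝ) ^ (δ / 4) * ((B : ℝ) ^ (δ / 4) * (B : ℝ) ^ (2 - δ)) := by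
    rw [← Real.rpow_add hBpos, ← Real.rpow_add hBpos]
    congr 1
    ring
  refine (hcard.trans hsum).trans ?_
  rw [b2, hX, Real.mul_rpow (by linarith) hBpos.le]
  push_cast
  calc (c : ℝ) * N * (|C| * ((c : ℝ) ^ (2 - δ) * (B : ℝ) ^ (2 - δ)))
      ≤ (c : ℝ) * ((A + 1) * (B : ℝ) ^ (δ / 4)) * (|C| * ((c : ℝ) ^ (2 - δ) * (B : ℝ) ^ (2 - δ))) := by
        gcongr
    _ = (c * (A + 1) * (|C| * (c : ℝ) ^ (2 - δ))) * ((B : ℝ) ^ (δ / 4) * (B : ℝ) ^ (2 - δ)) := by
        ring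
    _ ≤ _ := by gcongr

end Pool.Agent.MP_542436_nt.H70
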