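import Pool.Agent.MP_542436_nt.Sp.Spec

set_option autoImplicit false

namespace Pool.Agent.MP_542436_nt.H70

open Polynomial NumberField Finset Pool.Agent.MP_542436_nt.Sp

/-- An algebraic number has a non-unit integer polynomial dividing all its integer relations. -/
theorem exists_mu (K : Type) [Field K] [NumberField K] (α : K) :
    ∃ μ : ℤ[X], ¬ IsUnit μ ∧ ∀ a : ℤ[X], aeval α a = 0 → μ ∣ a := by
  have hint : IsIntegral ℚ α := Algebra.IsIntegral.isIntegral α
  have hm0 : minpoly ℚ α ≠ 0 := minpoly.ne_zero hint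
  set a0 : ℤ[X] := IsLocalization.integerNormalization (nonZeroDivisors ℤ) (minpoly ℚ α) with ha0
  obtain ⟨b, hb, hbe⟩ :=
    IsLocalization.integerNormalization_spec (nonZeroDivisors ℤ) (minpoly ℚ α)
  have hb0 : (b : ℚ) ≠ 0 := by exact_mod_cast nonZeroDivisors.ne_zero hb
  have hmap : a0.map (algebraMap ℤ ℚ) = C (b : ℚ) * minpoly ℚ α := by
    rw [ha0, hbe, ← smul_eq_C_mul]
    exact (Int.cast_smul_eq_zsmul ℚ b _).symm
  have hdeg : a0.natDegree = (minpoly ℚ α).natDegree := by
    rw [← natDegree_map_eq_of_injective (algebraMap ℤ ℚ).injective_int a0, hmap,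
      natDegree_C_mul hb0]
  refine ⟨a0.primPart, fun hu => ?_, fun a ha => ?_⟩
  · have h1 := natDegree_eq_zero_of_isUnit hu
    rw [natDegree_primPart, hdeg] at h1
    have := minpoly.natDegree_pos hint
    omega
  · apply (isPrimitive_primPart a0).dvd_of_fraction_map_dvd_fraction_map (K := ℚ)
    have h1 : minpoly ℚ α ∣ a.map (algebraMap ℤ ℚ) :=
      minpoly.dvd ℚ α (by rw [aeval_map_algebraMap]; exact ha)
    have h2 : a0.primPart.map (algebraMap ℤ ℚ) ∣ a0.map (algebraMap ℤ ℚ) :=
      Polynomial.map_dvd _ (primPart_dvd a0)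
    rw [hmap] at h2
    have h3 : IsUnit (C (b : ℚ)) := isUnit_C.2 (IsUnit.mk0 _ hb0)
    exact ((h3.dvd_mul_left).1 h2).trans h1

theorem up_map_eval (K : Type) [CommRing K] (g : ℤ[X][X]) (α : K) (k : ℕ) :
    ((up K g).map (evalRingHom α)).coeff k = aeval α (g.coeff k) := by
  simp only [up, coeff_map, coe_mapRingHom, coe_evalRingHom, aeval_def, eval_map]
  rfl

theorem nz2 (K : Type) [Field K] [NumberField K] (g : ℤ[X][X]) (hg : Irreducible g) (α : K)
    (h1 : 1 ≤ g.natDegree) : (up K g).map (evalRingHom α) ≠ 0 := by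
  intro h0
  obtain ⟨μ, hμ, hd⟩ := exists_mu K α
  have hp : g.IsPrimitive := hg.isPrimitive (by omega)
  apply hμ
  apply hp
  rw [C_dvd_iff_dvd_coeff]
  intro k
  apply hd
  rw [← up_map_eval, h0, coeff_zero]

theorem coeff_swap {R : Type} [CommRing R] (f : R[X][X]) (i k : ℕ) :
    ((Bivariate.swap f).coeff i).coeff k = (f.coeff k).coeff i := by
  induction f using Polynomial.induction_on' with
  | add p q hp hq => simp only [map_add, coeff_add, hp, hq]
  | monomial n a =>
    induction a using Polynomial.induction_on' with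
    | add p q hp hq => simp only [map_add, coeff_add, hp, hq]
    | monomial m r =>
      rw [Bivariate.swap_monomial_monomial]
      simp only [coeff_monomial]
      split_ifs <;> simp [coeff_monomial, *]

theorem up_eval_C (K : Type) [CommRing K] (g : ℤ[X][X]) (α : K) :
    (up K g).eval (C α) = (up K (Bivariate.swap g)).map (evalRingHom α) := by
  induction g using Polynomial.induction_on' with
  | add p q hp hq =>
    simp only [up, map_add, Polynomial.map_add, eval_add] at *
    rw [hp, hq]
  | monomial n a =>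
    induction a using Polynomial.induction_on' with
    | add p q hp hq =>
      simp only [up, map_add, Polynomial.map_add, eval_add] at *
      rw [hp, hq]
    | monomial m r =>
      rw [Bivariate.swap_monomial_monomial]
      simp only [up, Polynomial.map_monomial, coe_mapRingHom, eval_monomial, coe_evalRingHom]
      rw [← C_pow, monomial_mul_C]

theorem nz1 (K : Type) [Field K] [NumberField K] (g : ℤ[X][X]) (hg : Irreducible g) (α : K)
    (h1 : 1 ≤ dS g) : (up K g).eval (C α) ≠ 0 := by
  rw [up_eval_C]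
  apply nz2 K _ (hg.map (Bivariate.swap (R := ℤ)))
  unfold dS at h1
  rw [Finset.le_sup_iff (by norm_num)] at h1
  obtain ⟨k, -, hk⟩ := h1
  have hne : g.coeff k ≠ 0 := by
    intro h
    rw [h, natDegree_zero] at hk
    omega
  have h2 : (Bivariate.swap g).coeff (g.coeff k).natDegree ≠ 0 := by
    intro h
    have := coeff_swap g (g.coeff k).natDegree k
    rw [h, coeff_zero] at this
    exact leadingCoeff_ne_zero.2 hne this.symm
  exact hk.trans (le_natDegree_of_ne_zero h2)

theorem nz : NzStmt := fun K _ _ g hg α => ⟨nz1 K g hg α, nz2 K g hg α⟩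

/-! Irreducible components. -/

theorem eq_const (f : ℤ[X][X]) (h : dS f + f.natDegree = 0) : ∃ c : ℤ, f = C (C c) := by
  have h1 : f.natDegree = 0 := by omega
  have h2 : dS f = 0 := by omega
  have h3 : (f.coeff 0).natDegree = 0 := by
    by_cases h0 : f.coeff 0 = 0
    · rw [h0, natDegree_zero]
    · have : (f.coeff 0).natDegree ≤ dS f :=
        Finset.le_sup (f := fun k => (f.coeff k).natDegree) (mem_support_iff.2 h0)
      omega
  refine ⟨(f.coeff 0).coeff 0, ?_⟩
  rw [← eq_C_of_natDegree_eq_zero h3]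
  exact eq_C_of_natDegree_eq_zero h1

theorem ee_mul (f g : ℤ[X][X]) (s t : ℚ) :
    (up ℚ (f * g)).evalEval s t = (up ℚ f).evalEval s t * (up ℚ g).evalEval s t := by
  simp only [up, Polynomial.map_mul, evalEval_mul]

theorem ee_const (c : ℤ) (s t : ℚ) : (up ℚ (C (C c))).evalEval s t = c := by
  simp [up]

theorem factor_aux (hB : BaseStmt) (f : ℤ[X][X]) : f ≠ 0 → ∃ L : Finset ℤ[X][X],
    L.card ≤ dS f + f.natDegree ∧ (∀ g ∈ L, Irreducible g ∧ g ∣ f) ∧
      ∀ s t : ℚ, (up ℚ f).evalEval s t = 0 → ∃ g ∈ L, (up ℚ g).evalEval s t = 0 := by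
  classical
  induction f using WfDvdMonoid.induction_on_irreducible with
  | zero => intro h; exact absurd rfl h
  | unit u hu =>
    intro _
    refine ⟨∅, by simp, by simp, fun s t h => ?_⟩
    obtain ⟨v, hv⟩ := hu.exists_right_inv
    have h1 := ee_mul u v s t
    rw [hv, h, zero_mul] at h1
    simp [up] at h1
  | mul a p ha hp ih =>
    intro _
    obtain ⟨L, h1, h2, h3⟩ := ih ha
    have e1 := hB.dS_mul ℤ p a hp.ne_zero ha
    have e2 := natDegree_mul hp.ne_zero ha
    by_cases hc : dS p + p.natDegree = 0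
    · obtain ⟨c, rfl⟩ := eq_const p hc
      have hc0 : (c : ℚ) ≠ 0 := by
        intro h
        have : c = 0 := by exact_mod_cast h
        apply hp.ne_zero
        rw [this]
        simp
      refine ⟨L, by omega, fun g hg => ⟨(h2 g hg).1, (h2 g hg).2.mul_left _⟩, fun s t h => ?_⟩
      rw [ee_mul, ee_const] at h
      exact h3 s t ((mul_eq_zero.1 h).resolve_left hc0)
    · refine ⟨insert p L, (card_insert_le _ _).trans (by omega), fun g hg => ?_, fun s t h => ?_⟩
      · rcases mem_insert.1 hg with rfl | hg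
        · exact ⟨hp, dvd_mul_right _ _⟩
        · exact ⟨(h2 g hg).1, (h2 g hg).2.mul_left _⟩
      · rw [ee_mul] at h
        rcases mul_eq_zero.1 h with h | h
        · exact ⟨p, mem_insert_self _ _, h⟩
        · obtain ⟨g, hg, hg'⟩ := h3 s t h
          exact ⟨g, mem_insert_of_mem hg, hg'⟩

theorem factor (hB : BaseStmt) : FactorStmt := by
  intro m n f hf hd
  obtain ⟨L, h1, h2, h3⟩ := factor_aux hB f hf
  have := (hB.dg_iff ℤ m n f).1 hd
  exact ⟨L, by omega, h2, h3⟩

/-! The Bezout bound. -/

theorem natDegree_det_le {R : Type} [CommRing R] {ι : Type} [Fintype ι] [DecidableEq ι]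
    (M : Matrix ι ι R[X]) (d : ι → ℕ) (h : ∀ i j, (M i j).natDegree ≤ d j) :
    M.det.natDegree ≤ ∑ j, d j := by
  rw [Matrix.det_apply']
  refine natDegree_sum_le_of_forall_le _ _ fun σ _ => ?_
  refine natDegree_mul_le.trans ?_
  rw [natDegree_intCast, zero_add]
  exact (natDegree_prod_le _ _).trans (Finset.sum_le_sum fun j _ => h _ j)

theorem natDegree_res_le {R : Type} [CommRing R] (f g : R[X][X]) (a b m m1 : ℕ)
    (hf : ∀ k, (f.coeff k).natDegree ≤ m) (hg : ∀ k, (g.coeff k).natDegree ≤ m1) :
    (resultant f g a b).natDegree ≤ a * m1 + b * m := by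
  have h := natDegree_det_le (sylvester f g a b)
    (fun j => j.addCases (fun _ => m1) (fun _ => m)) (fun i j => by
      induction j using Fin.addCases with
      | left j =>
        simp only [sylvester, Matrix.of_apply, Fin.addCases_left]
        split_ifs
        · exact hg _
        · simp
      | right j =>
        simp only [sylvester, Matrix.of_apply, Fin.addCases_right]
        split_ifs
        · exact hf _
        · simp)
  rw [Fin.sum_univ_add] at h
  simpa [resultant] using h

theorem res_ne (g h : ℤ[X][X]) (hg : Irreducible g) (h1 : 1 ≤ g.natDegree) (hn : ¬ g ∣ h) :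
    resultant h g ≠ 0 := by
  intro h0
  let F := FractionRing ℤ[X]
  have hinj : Function.Injective (algebraMap ℤ[X] F) := IsFractionRing.injective _ _
  have hp : g.IsPrimitive := hg.isPrimitive (by omega)
  have hi : Irreducible (g.map (algebraMap ℤ[X] F)) :=
    (hp.irreducible_iff_irreducible_map_fraction_map (K := F)).1 hg
  have hnd : ¬ g.map (algebraMap ℤ[X] F) ∣ h.map (algebraMap ℤ[X] F) :=
    fun hd => hn (hp.dvd_of_fraction_map_dvd_fraction_map hd)
  have hc : IsCoprime (h.map (algebraMap ℤ[X] F)) (g.map (algebraMap ℤ[X] F)) :=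
    (hi.coprime_iff_not_dvd.2 hnd).symm
  apply resultant_ne_zero _ _ hc
  rw [natDegree_map_eq_of_injective hinj, natDegree_map_eq_of_injective hinj, resultant_map_map,
    h0, map_zero]

theorem coeff_deg_le (hB : BaseStmt) (m n : ℕ) (f : ℤ[X][X]) (hd : Dg (m + 1) (n + 1) f) (k : ℕ) :
    (f.coeff k).natDegree ≤ m := by
  by_cases h0 : f.coeff k = 0
  · rw [h0, natDegree_zero]
    omega
  · exact (Finset.le_sup (f := fun k => (f.coeff k).natDegree) (mem_support_iff.2 h0)).trans
      ((hB.dg_iff ℤ m n f).1 hd).1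

theorem bez (hB : BaseStmt) : BezStmt := by
  classical
  intro m1 n1 m n g h hg h1 dg dh hn E hE
  have hg2 := ((hB.dg_iff ℤ m1 n1 g).1 dg).2
  have hh2 := ((hB.dg_iff ℤ m n h).1 dh).2
  set R : ℚ[X] := (resultant h g).map (Int.castRingHom ℚ) with hR
  have hR0 : R ≠ 0 :=
    (Polynomial.map_ne_zero_iff (Int.castRingHom ℚ).injective_int).2 (res_ne g h hg h1 hn)
  have hRd : R.natDegree ≤ m * n1 + m1 * n := by
    refine natDegree_map_le.trans ((natDegree_res_le h g _ _ m m1 (coeff_deg_le hB m n h dh)
      (coeff_deg_le hB m1 n1 g dg)).trans ?_)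
    have e1 := Nat.mul_le_mul_right m1 hh2
    have e2 := Nat.mul_le_mul_right m hg2
    nlinarith
  obtain ⟨p, q, -, -, hpq⟩ :=
    exists_mul_add_mul_eq_C_resultant h g le_rfl le_rfl (Or.inr (by omega))
  have hroot : ∀ e ∈ E, e.1 ∈ R.roots.toFinset := by
    intro e he
    rw [Multiset.mem_toFinset, mem_roots hR0, IsRoot.def]
    have e1 : (up ℚ (h * p + g * q)).evalEval e.1 e.2 = 0 := by
      have : up ℚ (h * p + g * q) = up ℚ (h * p) + up ℚ (g * q) := by
        simp only [up, Polynomial.map_add]
      rw [this, evalEval_add, ee_mul, ee_mul, (hE e he).1, (hE e he).2]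
      simp
    rw [hpq] at e1
    simpa [up, hR, evalEval_C] using e1
  have hfib : ∀ s ∈ R.roots.toFinset, (E.filter (fun e => e.1 = s)).card ≤ n1 := by
    intro s _
    have hne := nz2 ℚ g hg s h1
    set G : ℚ[X] := (up ℚ g).map (evalRingHom s) with hG
    have hGd : G.natDegree ≤ n1 := natDegree_map_le.trans (natDegree_map_le.trans hg2)
    have : (E.filter (fun e => e.1 = s)).card ≤ G.roots.toFinset.card := by
      apply Finset.card_le_card_of_injOn (fun e => e.2)
      · intro e he
        rw [Finset.mem_coe, mem_filter] at he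
        rw [Finset.mem_coe, Multiset.mem_toFinset, mem_roots hne, IsRoot.def, hG, ← he.2,
          map_evalRingHom_eval]
        exact (hE e he.1).1
      · intro e he e' he' hee
        rw [Finset.mem_coe, mem_filter] at he he'
        exact Prod.ext (he.2.trans he'.2.symm) hee
    exact this.trans ((Multiset.toFinset_card_le _).trans ((card_roots' G).trans hGd))
  have hc := Finset.card_le_mul_card_image_of_maps_to hroot n1 hfib
  exact hc.trans (Nat.mul_le_mul_left _
    ((Multiset.toFinset_card_le _).trans ((card_roots' R).trans hRd)))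

end Pool.Agent.MP_542436_nt.H70
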